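import Mathlib

/-!
# Grid-free affine hypersurfaces are not of bounded degree up to polynomial automorphisms

The hypersurface `H : u₁ + u₂ v₁ + v₂² + v₁ᴺ = 0` in `ℂ² × ℂ²` is irreducible and
`(2, 3)`-grid-free. If `H = {F ∘ (id × σ) = 0}` with `F` of degree at most `d` in the second group of
variables and `σ⁻¹ = (a, b)`, then `a` and `c = b² + aᴺ` have degree at most `d`, and the Jacobian
identity `J(a, c) = 2 b J(a, b)` with `J(a, b)` constant bounds the degree of `b`, hence of `aᴺ`.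
-/

set_option autoImplicit false

namespace Pool.Agent.Results.MP_a64928_ag.NoDegreeBound

open MvPolynomial

/-- The value of `F` at the point `(u, v)` of `ℂˢ × ℂˢ`. -/
noncomputable def ev {s : ℕ} (F : MvPolynomial (Fin s ⊕ Fin s) ℂ) (u v : Fin s → ℂ) : ℂ :=
  eval (Sum.elim u v) F

/-- Algebraic subsets of `ℂˢ × ℂˢ`. -/
def IsAlgebraicSet {s : ℕ} (Z : Set ((Fin s → ℂ) × (Fin s → ℂ))) : Prop :=
  ∃ S : Set (MvPolynomial (Fin s ⊕ Fin s) ℂ), Z = {p | ∀ F ∈ S, ev F p.1 p.2 = 0}

/-- `H` is an irreducible affine hypersurface: the zero set of a nonconstant polynomial that is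
nonempty and is not covered by two algebraic sets without being contained in one of them. -/
def IsIrreducibleHypersurface {s : ℕ} (H : Set ((Fin s → ℂ) × (Fin s → ℂ))) : Prop :=
  (∃ F : MvPolynomial (Fin s ⊕ Fin s) ℂ, (∀ c, F ≠ C c) ∧ H = {p | ev F p.1 p.2 = 0}) ∧
    H.Nonempty ∧ ∀ Z₁ Z₂, IsAlgebraicSet Z₁ → IsAlgebraicSet Z₂ → H ⊆ Z₁ ∪ Z₂ →
      H ⊆ Z₁ ∨ H ⊆ Z₂

/-- `V` contains no product of `s` points with `t` points. -/
def GridFree {P₁ P₂ : Type*} (s t : ℕ) (V : Set (P₁ × P₂)) : Prop :=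
  ¬ ∃ (S : Finset P₁) (T : Finset P₂), S.card = s ∧ T.card = t ∧ ∀ u ∈ S, ∀ v ∈ T, (u, v) ∈ V

/-- The polynomial map given by a tuple of polynomials. -/
noncomputable def polyMap {s : ℕ} (σ : Fin s → MvPolynomial (Fin s) ℂ) (v : Fin s → ℂ) :
    Fin s → ℂ :=
  fun i => eval v (σ i)

/-- `σ` is a polynomial automorphism of `ℂˢ`. -/
def IsAut {s : ℕ} (σ : Fin s → MvPolynomial (Fin s) ℂ) : Prop :=
  ∃ τ : Fin s → MvPolynomial (Fin s) ℂ,
    (∀ v, polyMap τ (polyMap σ v) = v) ∧ ∀ v, polyMap σ (polyMap τ v) = v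

/-- `F` has degree at most `d` in the second group of variables. -/
def DegYLE {s : ℕ} (d : ℕ) (F : MvPolynomial (Fin s ⊕ Fin s) ℂ) : Prop :=
  ∀ m ∈ F.support, ∑ i, m (Sum.inr i) ≤ d

/-! ### Restriction to lines -/

/-- The restriction of `f` to the line `w₀ + s w₁`. -/
theorem exists_line {n : ℕ} (f : MvPolynomial (Fin n) ℂ) (w₀ w₁ : Fin n → ℂ) :
    ∃ q : Polynomial ℂ, ∀ s : ℂ, q.eval s = eval (w₀ + s • w₁) f := by
  refine ⟨aeval (fun i => Polynomial.C (w₀ i) + Polynomial.X * Polynomial.C (w₁ i)) f, ?_⟩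
  intro s
  rw [← Polynomial.coe_evalRingHom, MvPolynomial.aeval_def, MvPolynomial.hom_eval₂]
  unfold MvPolynomial.eval
  rw [coe_eval₂Hom]
  congr 1
  · ext r; simp
  · ext i; simp; ring

/-- If all restrictions of `f` to lines have degree at most `d`, so has `f`. -/
theorem totalDegree_le_of_lines {n d : ℕ} (f : MvPolynomial (Fin n) ℂ)
    (h : ∀ w₀ w₁ : Fin n → ℂ, ∃ q : Polynomial ℂ, q.natDegree ≤ d ∧
      ∀ s : ℂ, q.eval s = eval (w₀ + s • w₁) f) : f.totalDegree ≤ d := by
  by_contra hcon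
  push Not at hcon
  set D := f.totalDegree with hD
  have hne : homogeneousComponent D f ≠ 0 := by
    intro h0
    have hf0 : f ≠ 0 := by
      intro h1
      rw [hD, h1] at hcon
      simp at hcon
    obtain ⟨m, hm, hmd⟩ := Finset.exists_mem_eq_sup f.support (support_nonempty.2 hf0)
      (fun m => m.sum fun _ e => e)
    have h1 : coeff m (homogeneousComponent D f) = coeff m f := by
      rw [coeff_homogeneousComponent, if_pos]
      exact hmd.symm
    rw [h0] at h1
    exact mem_support_iff.1 hm (by simpa using h1.symm)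
  obtain ⟨w₁, hw₁⟩ : ∃ w, eval w (homogeneousComponent D f) ≠ 0 := by
    by_contra h1
    push Not at h1
    exact hne (MvPolynomial.funext fun x => by rw [h1 x, map_zero])
  obtain ⟨q, hqd, hq⟩ := h 0 w₁
  let q' : Polynomial ℂ := ∑ k ∈ Finset.range (D + 1),
    Polynomial.C (eval w₁ (homogeneousComponent k f)) * Polynomial.X ^ k
  have hqq : q = q' := by
    apply Polynomial.funext
    intro s
    rw [hq, zero_add]
    conv_lhs => rw [← sum_homogeneousComponent f]
    rw [map_sum, Polynomial.eval_finsetSum]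
    refine Finset.sum_congr rfl fun k _ => ?_
    rw [Polynomial.eval_mul, Polynomial.eval_C, Polynomial.eval_pow, Polynomial.eval_X]
    have hk := homogeneousComponent_isHomogeneous k f
    rw [eval_eq, eval_eq, Finset.sum_mul]
    refine Finset.sum_congr rfl fun m hm => ?_
    have h1 : m.degree = k := by
      have := hk (mem_support_iff.1 hm)
      rw [Finsupp.degree_eq_weight_one (R := ℕ)]
      exact this
    have h2 : ∏ i ∈ m.support, (s • w₁) i ^ m i = s ^ k * ∏ i ∈ m.support, w₁ i ^ m i := by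
      simp only [Pi.smul_apply, smul_eq_mul, mul_pow]
      rw [Finset.prod_mul_distrib, Finset.prod_pow_eq_pow_sum]
      congr 2
    rw [h2]; ring
  have hc : q.coeff D = eval w₁ (homogeneousComponent D f) := by
    rw [hqq]
    simp only [q', Polynomial.finsetSum_coeff, Polynomial.coeff_C_mul, Polynomial.coeff_X_pow]
    rw [Finset.sum_eq_single D]
    · simp
    · intro k _ hk
      rw [if_neg hk.symm, mul_zero]
    · intro h1
      simp at h1
  have h3 : q.coeff D = 0 := Polynomial.coeff_eq_zero_of_natDegree_lt (by omega)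
  rw [hc] at h3
  exact hw₁ h3

/-- The restriction of `F(u, ·)` to a line has degree at most the degree of `F` in the second group
of variables. -/
theorem line_ev {s d : ℕ} (F : MvPolynomial (Fin s ⊕ Fin s) ℂ) (hF : DegYLE d F)
    (u w₀ w₁ : Fin s → ℂ) :
    ∃ q : Polynomial ℂ, q.natDegree ≤ d ∧ ∀ t : ℂ, q.eval t = ev F u (w₀ + t • w₁) := by
  refine ⟨∑ m ∈ F.support, Polynomial.C (coeff m F) * ∏ i : Fin s ⊕ Fin s,
    (Sum.elim (fun i => Polynomial.C (u i))
      (fun i => Polynomial.C (w₀ i) + Polynomial.X * Polynomial.C (w₁ i)) i) ^ m i, ?_, ?_⟩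
  · apply Polynomial.natDegree_sum_le_of_forall_le
    intro m hm
    refine (Polynomial.natDegree_C_mul_le _ _).trans ?_
    rw [Fintype.prod_sum_type]
    refine (Polynomial.natDegree_mul_le).trans ?_
    have h1 : (∏ i : Fin s, (Sum.elim (fun i => Polynomial.C (u i))
      (fun i => Polynomial.C (w₀ i) + Polynomial.X * Polynomial.C (w₁ i))
        (Sum.inl i)) ^ m (Sum.inl i) : Polynomial ℂ).natDegree = 0 := by
      simp only [Sum.elim_inl]
      apply Nat.eq_zero_of_le_zero
      refine (Polynomial.natDegree_prod_le _ _).trans ?_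
      apply le_of_eq
      apply Finset.sum_eq_zero
      intro i _
      rw [← Polynomial.C_pow, Polynomial.natDegree_C]
    rw [h1, zero_add]
    refine (Polynomial.natDegree_prod_le _ _).trans ?_
    refine le_trans ?_ (hF m hm)
    apply Finset.sum_le_sum
    intro i _
    simp only [Sum.elim_inr]
    refine (Polynomial.natDegree_pow_le).trans ?_
    have h2 : (Polynomial.C (w₀ i) + Polynomial.X * Polynomial.C (w₁ i)).natDegree ≤ 1 := by
      refine (Polynomial.natDegree_add_le _ _).trans ?_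
      rw [Polynomial.natDegree_C, Nat.zero_max]
      refine (Polynomial.natDegree_mul_C_le _ _).trans ?_
      exact Polynomial.natDegree_X_le
    nlinarith
  · intro t
    unfold ev
    rw [eval_eq', Polynomial.eval_finsetSum]
    refine Finset.sum_congr rfl fun m _ => ?_
    rw [Polynomial.eval_mul, Polynomial.eval_C, Polynomial.eval_prod]
    congr 1
    refine Finset.prod_congr rfl fun i _ => ?_
    rw [Polynomial.eval_pow]
    congr 1
    rcases i with i | i
    · simp
    · simp; ring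

/-- Counting roots: if for every `κ` the roots of `Φ κ`, of degree at most `d`, are the solutions of
`γ(s) = -κ`, then `γ` has degree at most `d`. -/
theorem natDegree_le_of_levels {d : ℕ} (γ : Polynomial ℂ) (Φ : ℂ → Polynomial ℂ)
    (hd : ∀ κ, (Φ κ).natDegree ≤ d) (h : ∀ κ s, (Φ κ).eval s = 0 ↔ κ + γ.eval s = 0) :
    γ.natDegree ≤ d := by
  classical
  rcases Nat.eq_zero_or_pos γ.natDegree with h0 | h0
  · omega
  have hder : Polynomial.derivative γ ≠ 0 := by
    intro h1
    have := Polynomial.derivative_eq_zero.1 h1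
    omega
  -- a non-critical value
  obtain ⟨κ, hκ⟩ : ∃ κ : ℂ, κ ∉ ((Polynomial.derivative γ).roots.toFinset.image
      (fun s => - γ.eval s)) := Infinite.exists_notMem_finset _
  have hnc : ∀ s, (Polynomial.derivative γ).eval s = 0 → κ + γ.eval s ≠ 0 := by
    intro s hs h1
    apply hκ
    rw [Finset.mem_image]
    refine ⟨s, ?_, by linear_combination -h1⟩
    rw [Multiset.mem_toFinset, Polynomial.mem_roots hder]
    exact hs
  set P := γ + Polynomial.C κ with hP
  have hPdeg : P.natDegree = γ.natDegree := Polynomial.natDegree_add_C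
  have hPne : P ≠ 0 := by
    intro h1
    rw [h1] at hPdeg
    simp at hPdeg
    omega
  have hcard : P.roots.card = P.natDegree :=
    Polynomial.splits_iff_card_roots.1 (IsAlgClosed.splits P)
  have hnodup : P.roots.Nodup := by
    rw [Multiset.nodup_iff_count_le_one]
    intro s
    rw [Polynomial.count_roots]
    by_contra h1
    push Not at h1
    rw [Polynomial.one_lt_rootMultiplicity_iff_isRoot hPne] at h1
    obtain ⟨h2, h3⟩ := h1
    have h4 : (Polynomial.derivative γ).eval s = 0 := by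
      have : Polynomial.derivative P = Polynomial.derivative γ := by
        rw [hP, Polynomial.derivative_add, Polynomial.derivative_C, add_zero]
      rw [← this]; exact h3
    apply hnc s h4
    have h5 : P.eval s = 0 := h2
    rw [hP, Polynomial.eval_add, Polynomial.eval_C] at h5
    linear_combination h5
  have hΦne : Φ κ ≠ 0 := by
    intro h1
    have h2 : ∀ s, κ + γ.eval s = 0 := fun s => (h κ s).1 (by rw [h1]; simp)
    apply hPne
    apply Polynomial.funext
    intro s
    rw [hP, Polynomial.eval_add, Polynomial.eval_C, Polynomial.eval_zero]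
    linear_combination h2 s
  have hsub : P.roots ≤ (Φ κ).roots := by
    rw [Multiset.le_iff_subset hnodup]
    intro s hs
    rw [Polynomial.mem_roots hPne] at hs
    rw [Polynomial.mem_roots hΦne]
    have h5 : P.eval s = 0 := hs
    rw [hP, Polynomial.eval_add, Polynomial.eval_C] at h5
    exact (h κ s).2 (by linear_combination h5)
  calc γ.natDegree = P.roots.card := by rw [hcard, hPdeg]
    _ ≤ (Φ κ).roots.card := Multiset.card_le_card hsub
    _ ≤ (Φ κ).natDegree := Polynomial.card_roots' _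
    _ ≤ d := hd κ

/-! ### Jacobians -/

theorem totalDegree_pderiv_le {n : ℕ} (i : Fin n) (f : MvPolynomial (Fin n) ℂ) :
    (pderiv i f).totalDegree ≤ f.totalDegree := by
  conv_lhs => rw [← support_sum_monomial_coeff f]
  rw [map_sum]
  apply totalDegree_finsetSum_le
  intro m hm
  rw [pderiv_monomial]
  refine (totalDegree_monomial_le _ _).trans ?_
  refine le_trans ?_ (le_totalDegree hm)
  rw [Finsupp.sum_fintype _ _ (by simp), Finsupp.sum_fintype _ _ (by simp)]
  apply Finset.sum_le_sum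
  intro j _
  simp

/-- The chain rule. -/
theorem pderiv_aeval (f : Fin 2 → MvPolynomial (Fin 2) ℂ) (i : Fin 2)
    (p : MvPolynomial (Fin 2) ℂ) :
    pderiv i (aeval f p) = aeval f (pderiv 0 p) * pderiv i (f 0) +
      aeval f (pderiv 1 p) * pderiv i (f 1) := by
  induction p using MvPolynomial.induction_on with
  | C a => simp [algHom_C, algebraMap_eq]
  | add p q hp hq => simp only [map_add, hp, hq]; ring
  | mul_X p j hp =>
    simp only [map_mul, Derivation.leibniz, hp, aeval_X, smul_eq_mul, map_add]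
    fin_cases j
    · simp [pderiv_X]; ring
    · simp [pderiv_X]; ring

/-- The Jacobian determinant of two polynomials in two variables. -/
noncomputable def J (f g : MvPolynomial (Fin 2) ℂ) : MvPolynomial (Fin 2) ℂ :=
  pderiv 0 f * pderiv 1 g - pderiv 1 f * pderiv 0 g

theorem eval_aeval' {n : ℕ} (τ : Fin n → MvPolynomial (Fin n) ℂ) (v : Fin n → ℂ)
    (p : MvPolynomial (Fin n) ℂ) : eval v (aeval τ p) = eval (polyMap τ v) p := by
  rw [MvPolynomial.aeval_def, MvPolynomial.hom_eval₂]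
  unfold polyMap
  conv_rhs => unfold MvPolynomial.eval
  rw [coe_eval₂Hom]
  congr 1
  ext r
  simp

theorem J_comp (σ τ : Fin 2 → MvPolynomial (Fin 2) ℂ)
    (h : ∀ v, polyMap σ (polyMap τ v) = v) :
    aeval τ (J (σ 0) (σ 1)) * J (τ 0) (τ 1) = 1 := by
  have hcomp : ∀ i, aeval τ (σ i) = X i := by
    intro i
    apply MvPolynomial.funext
    intro v
    rw [eval_aeval', eval_X]
    exact congrFun (h v) i
  have h0 := fun i => pderiv_aeval τ i (σ 0)
  have h1 := fun i => pderiv_aeval τ i (σ 1)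
  simp only [hcomp] at h0 h1
  have a00 := h0 0
  have a01 := h0 1
  have a10 := h1 0
  have a11 := h1 1
  rw [pderiv_X_self] at a00 a11
  rw [pderiv_X_of_ne (by decide)] at a01 a10
  unfold J
  rw [map_sub, map_mul, map_mul]
  calc (aeval τ (pderiv 0 (σ 0)) * aeval τ (pderiv 1 (σ 1)) -
      aeval τ (pderiv 1 (σ 0)) * aeval τ (pderiv 0 (σ 1))) *
      (pderiv 0 (τ 0) * pderiv 1 (τ 1) - pderiv 1 (τ 0) * pderiv 0 (τ 1)) =
      (aeval τ (pderiv 0 (σ 0)) * pderiv 0 (τ 0) + aeval τ (pderiv 1 (σ 0)) * pderiv 0 (τ 1)) *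
      (aeval τ (pderiv 0 (σ 1)) * pderiv 1 (τ 0) + aeval τ (pderiv 1 (σ 1)) * pderiv 1 (τ 1)) -
      (aeval τ (pderiv 0 (σ 0)) * pderiv 1 (τ 0) + aeval τ (pderiv 1 (σ 0)) * pderiv 1 (τ 1)) *
      (aeval τ (pderiv 0 (σ 1)) * pderiv 0 (τ 0) + aeval τ (pderiv 1 (σ 1)) * pderiv 0 (τ 1)) := by
        ring
    _ = 1 := by rw [← a00, ← a01, ← a10, ← a11]; ring

theorem J_sq (a b : MvPolynomial (Fin 2) ℂ) (N : ℕ) :
    J a (b ^ 2 + a ^ N) = 2 * b * J a b := by
  unfold J
  simp only [map_add, Derivation.leibniz_pow, smul_eq_mul, nsmul_eq_mul]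
  push_cast
  ring

theorem totalDegree_J_le {d : ℕ} {f g : MvPolynomial (Fin 2) ℂ} (hf : f.totalDegree ≤ d)
    (hg : g.totalDegree ≤ d) : (J f g).totalDegree ≤ 2 * d := by
  unfold J
  refine (totalDegree_sub _ _).trans (max_le ?_ ?_)
  · refine (totalDegree_mul _ _).trans ?_
    have h1 := totalDegree_pderiv_le 0 f
    have h2 := totalDegree_pderiv_le 1 g
    omega
  · refine (totalDegree_mul _ _).trans ?_
    have h1 := totalDegree_pderiv_le 1 f
    have h2 := totalDegree_pderiv_le 0 g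
    omega

/-! ### The hypersurface -/

/-- The hypersurface `u₁ + u₂ v₁ + v₂² + v₁ᴺ = 0`. -/
def H (N : ℕ) : Set ((Fin 2 → ℂ) × (Fin 2 → ℂ)) :=
  {p | p.1 0 + p.1 1 * p.2 0 + p.2 1 ^ 2 + p.2 0 ^ N = 0}

theorem H_gridFree (N : ℕ) : GridFree 2 3 (H N) := by
  rintro ⟨S, T, hS, hT, h⟩
  obtain ⟨u, u', huu', rfl⟩ := Finset.card_eq_two.1 hS
  obtain ⟨v, v', v'', h1, h2, h3, rfl⟩ := Finset.card_eq_three.1 hT
  have hv := h u (by simp) v (by simp)
  have hv' := h u (by simp) v' (by simp)
  have hv'' := h u (by simp) v'' (by simp)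
  have gv := h u' (by simp) v (by simp)
  have gv' := h u' (by simp) v' (by simp)
  have gv'' := h u' (by simp) v'' (by simp)
  change _ = _ at hv hv' hv'' gv gv' gv''
  simp only at hv hv' hv'' gv gv' gv''
  have hne : u 1 - u' 1 ≠ 0 := by
    intro h0
    apply huu'
    ext i
    fin_cases i
    · change u 0 = u' 0
      linear_combination hv - gv - v 0 * h0
    · exact sub_eq_zero.1 h0
  have e1 : v 0 = v' 0 := by
    apply mul_left_cancel₀ hne
    linear_combination hv - gv - hv' + gv'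
  have e2 : v 0 = v'' 0 := by
    apply mul_left_cancel₀ hne
    linear_combination hv - gv - hv'' + gv''
  have s1 : v 1 ^ 2 = v' 1 ^ 2 := by
    rw [← e1] at hv'
    linear_combination hv - hv'
  have s2 : v 1 ^ 2 = v'' 1 ^ 2 := by
    rw [← e2] at hv''
    linear_combination hv - hv''
  have hext : ∀ x y : Fin 2 → ℂ, x 0 = y 0 → x 1 = y 1 → x = y := by
    intro x y hx hy
    ext i
    fin_cases i
    · exact hx
    · exact hy
  rcases sq_eq_sq_iff_eq_or_eq_neg.1 s1 with t1 | t1
  · exact h1 (hext _ _ e1 t1)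
  · rcases sq_eq_sq_iff_eq_or_eq_neg.1 s2 with t2 | t2
    · exact h2 (hext _ _ e2 t2)
    · exact h3 (hext _ _ (e1.symm.trans e2) (neg_injective (t1.symm.trans t2)))

/-- The defining polynomial. -/
noncomputable def defPoly (N : ℕ) : MvPolynomial (Fin 2 ⊕ Fin 2) ℂ :=
  X (Sum.inl 0) + X (Sum.inl 1) * X (Sum.inr 0) + X (Sum.inr 1) ^ 2 + X (Sum.inr 0) ^ N

theorem ev_defPoly (N : ℕ) (u v : Fin 2 → ℂ) :
    ev (defPoly N) u v = u 0 + u 1 * v 0 + v 1 ^ 2 + v 0 ^ N := by
  simp [ev, defPoly]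

theorem H_irreducible (N : ℕ) : IsIrreducibleHypersurface (H N) := by
  refine ⟨⟨defPoly N, ?_, ?_⟩, ?_, ?_⟩
  · intro c hc
    have h1 := ev_defPoly N ![0, 0] ![0, 0]
    have h2 := ev_defPoly N ![1, 0] ![0, 0]
    rw [hc] at h1 h2
    simp [ev] at h1 h2
    rw [h1] at h2
    simp at h2
  · ext p
    simp only [H, Set.mem_ofPred_eq, ev_defPoly]
  · refine ⟨(![-(0 : ℂ) ^ N, 0], ![0, 0]), ?_⟩
    simp [H]
  · rintro Z₁ Z₂ ⟨S₁, rfl⟩ ⟨S₂, rfl⟩ hsub
    by_contra hcon
    push Not at hcon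
    obtain ⟨hn1, hn2⟩ := hcon
    obtain ⟨p₁, hp₁, hq₁⟩ := Set.not_subset.1 hn1
    obtain ⟨p₂, hp₂, hq₂⟩ := Set.not_subset.1 hn2
    change ¬ ∀ F ∈ S₁, _ at hq₁
    change ¬ ∀ F ∈ S₂, _ at hq₂
    push Not at hq₁ hq₂
    obtain ⟨F₁, hF₁, hne₁⟩ := hq₁
    obtain ⟨F₂, hF₂, hne₂⟩ := hq₂
    -- the parametrisation of `H` by `(u₂, v₁, v₂)`
    let par : Fin 2 ⊕ Fin 2 → MvPolynomial (Fin 3) ℂ :=
      Sum.elim ![-(X 0 * X 1 + X 2 ^ 2 + X 1 ^ N), X 0] ![X 1, X 2]
    have hpar : ∀ (F : MvPolynomial (Fin 2 ⊕ Fin 2) ℂ) (x : Fin 3 → ℂ),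
        eval x (aeval par F) =
          ev F ![-(x 0 * x 1 + x 2 ^ 2 + x 1 ^ N), x 0] ![x 1, x 2] := by
      intro F x
      rw [MvPolynomial.aeval_def, MvPolynomial.hom_eval₂]
      unfold ev
      conv_rhs => unfold MvPolynomial.eval
      rw [coe_eval₂Hom]
      congr 1
      · ext r; simp
      · ext i
        rcases i with i | i <;> fin_cases i <;> simp [par]
    have hpt : ∀ q ∈ H N, ∃ x : Fin 3 → ℂ,
        q = (![-(x 0 * x 1 + x 2 ^ 2 + x 1 ^ N), x 0], ![x 1, x 2]) := by
      rintro ⟨u, v⟩ hq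
      change u 0 + u 1 * v 0 + v 1 ^ 2 + v 0 ^ N = 0 at hq
      refine ⟨![u 1, v 0, v 1], ?_⟩
      apply Prod.ext
      · ext i
        fin_cases i
        · simp
          linear_combination hq
        · simp
      · ext i
        fin_cases i <;> simp
    have hmem : ∀ x : Fin 3 → ℂ,
        ((![-(x 0 * x 1 + x 2 ^ 2 + x 1 ^ N), x 0], ![x 1, x 2]) :
          (Fin 2 → ℂ) × (Fin 2 → ℂ)) ∈ H N := by
      intro x
      simp [H]
      ring
    have hprod : aeval par F₁ * aeval par F₂ = 0 := by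
      apply MvPolynomial.funext
      intro x
      rw [map_mul, map_zero, hpar, hpar]
      rcases hsub (hmem x) with h | h
      · have := h F₁ hF₁
        simp only at this
        rw [this, zero_mul]
      · have := h F₂ hF₂
        simp only at this
        rw [this, mul_zero]
    obtain ⟨x₁, hx₁⟩ := hpt p₁ hp₁
    obtain ⟨x₂, hx₂⟩ := hpt p₂ hp₂
    rcases mul_eq_zero.1 hprod with h | h
    · have h1 := hpar F₁ x₁
      rw [h, map_zero] at h1
      rw [hx₁] at hne₁
      exact hne₁ h1.symm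
    · have h1 := hpar F₂ x₂
      rw [h, map_zero] at h1
      rw [hx₂] at hne₂
      exact hne₂ h1.symm

/-- `H N` cannot be given by a polynomial of degree `d` in the second variables if `N > 4 d`. -/
theorem not_of_degree {d N : ℕ} (hN : 4 * d < N) (σ : Fin 2 → MvPolynomial (Fin 2) ℂ)
    (hσ : IsAut σ) (F : MvPolynomial (Fin 2 ⊕ Fin 2) ℂ) (hF : DegYLE d F) :
    H N ≠ {p | ev F p.1 (polyMap σ p.2) = 0} := by
  intro hH
  obtain ⟨τ, hτσ, hστ⟩ := hσ
  set a := τ 0 with ha
  set b := τ 1 with hb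
  -- the equation in the coordinates `w = σ v`
  have key : ∀ u w : Fin 2 → ℂ, ev F u w = 0 ↔
      u 0 + u 1 * eval w a + eval w b ^ 2 + eval w a ^ N = 0 := by
    intro u w
    have h1 : ((u, polyMap τ w) : (Fin 2 → ℂ) × (Fin 2 → ℂ)) ∈ H N ↔ ev F u w = 0 := by
      rw [hH]
      change ev F u (polyMap σ (polyMap τ w)) = 0 ↔ _
      rw [hστ]
    rw [← h1]
    rfl
  -- degrees on lines
  have hlines : ∀ (c : ℂ) (w₀ w₁ : Fin 2 → ℂ), ∃ q : Polynomial ℂ, q.natDegree ≤ d ∧
      ∀ s : ℂ, q.eval s = eval (w₀ + s • w₁) (C c * a + (b ^ 2 + a ^ N)) := by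
    intro c w₀ w₁
    obtain ⟨q, hq⟩ := exists_line (C c * a + (b ^ 2 + a ^ N)) w₀ w₁
    refine ⟨q, ?_, hq⟩
    choose Φ hΦd hΦ using fun κ : ℂ => line_ev F hF ![κ, c] w₀ w₁
    refine natDegree_le_of_levels q Φ hΦd ?_
    intro κ s
    rw [hΦ, key, hq]
    simp only [map_add, map_mul, map_pow, eval_C, Matrix.cons_val_zero, Matrix.cons_val_one]
    constructor
    · intro h; linear_combination h
    · intro h; linear_combination h
  have hc : (b ^ 2 + a ^ N).totalDegree ≤ d := by
    apply totalDegree_le_of_lines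
    intro w₀ w₁
    obtain ⟨q, hq1, hq2⟩ := hlines 0 w₀ w₁
    exact ⟨q, hq1, fun s => by rw [hq2]; simp⟩
  have hac : (a + (b ^ 2 + a ^ N)).totalDegree ≤ d := by
    apply totalDegree_le_of_lines
    intro w₀ w₁
    obtain ⟨q, hq1, hq2⟩ := hlines 1 w₀ w₁
    exact ⟨q, hq1, fun s => by rw [hq2]; simp⟩
  have had : a.totalDegree ≤ d := by
    have h1 : a = (a + (b ^ 2 + a ^ N)) - (b ^ 2 + a ^ N) := by ring
    rw [h1]
    exact (totalDegree_sub _ _).trans (max_le hac hc)
  -- the Jacobian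
  have hJ := J_comp σ τ hστ
  have hJne : J a b ≠ 0 := right_ne_zero_of_mul_eq_one hJ
  have hJ0 : (J a b).totalDegree = 0 := by
    have h1 := totalDegree_mul_of_isDomain (left_ne_zero_of_mul_eq_one hJ) hJne
    rw [hJ, totalDegree_one] at h1
    omega
  have hbd : b.totalDegree ≤ 2 * d := by
    by_cases hb0 : b = 0
    · rw [hb0]; simp
    have h1 := totalDegree_J_le had hc
    rw [J_sq] at h1
    have h2 : (2 : MvPolynomial (Fin 2) ℂ) = C 2 := (map_ofNat C 2).symm
    have h3 : (C 2 : MvPolynomial (Fin 2) ℂ) ≠ 0 := by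
      rw [Ne, C_eq_zero]; norm_num
    rw [h2, totalDegree_mul_of_isDomain (mul_ne_zero h3 hb0) hJne,
      totalDegree_mul_of_isDomain h3 hb0, totalDegree_C] at h1
    omega
  have haN : (a ^ N).totalDegree ≤ 4 * d := by
    have h1 : a ^ N = (b ^ 2 + a ^ N) - b ^ 2 := by ring
    rw [h1]
    refine (totalDegree_sub _ _).trans (max_le (by omega) ?_)
    refine (totalDegree_pow _ _).trans ?_
    omega
  -- `a` is not constant
  have ha1 : 1 ≤ a.totalDegree := by
    by_contra h0
    push Not at h0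
    have h1 : a.totalDegree = 0 := by omega
    rw [totalDegree_eq_zero_iff_eq_C] at h1
    apply hJne
    rw [h1]
    unfold J
    simp
  have ha0 : a ≠ 0 := by
    intro h0; rw [h0] at ha1; simp at ha1
  have hpow : ∀ k : ℕ, (a ^ k).totalDegree = k * a.totalDegree := by
    intro k
    induction k with
    | zero => simp
    | succ k ih =>
      rw [pow_succ, totalDegree_mul_of_isDomain (pow_ne_zero _ ha0) ha0, ih]
      ring
  rw [hpow] at haN
  nlinarith

/-- For `(s, t) = (2, 3)` there is no degree bound: for every `d` there is an irreducible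
`(2, 3)`-grid-free affine hypersurface in `ℂ² × ℂ²` that is not of the form `{F ∘ (id × σ) = 0}` for
any polynomial automorphism `σ` and any `F` of degree at most `d` in the second variables. -/
theorem result : ∀ d : ℕ, ∃ H : Set ((Fin 2 → ℂ) × (Fin 2 → ℂ)),
    IsIrreducibleHypersurface H ∧ GridFree 2 3 H ∧
    ∀ σ : Fin 2 → MvPolynomial (Fin 2) ℂ, IsAut σ →
      ∀ F : MvPolynomial (Fin 2 ⊕ Fin 2) ℂ, DegYLE d F →
        H ≠ {p | ev F p.1 (polyMap σ p.2) = 0} :=
  fun d => ⟨H (4 * d + 1), H_irreducible _, H_gridFree _,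
    fun σ hσ F hF => not_of_degree (by omega) σ hσ F hF⟩

end Pool.Agent.Results.MP_a64928_ag.NoDegreeBound
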